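import Pool.Agent.Lib.MP_1a91b9_nuX.DS.Defs
import Pool.Agent.Lib.MP_1a91b9_nuX.DB.Frob

/-!
# The curves `y² = x³ + D`: the decomposition groups at the places with `ψ v ≠ 1` modulo `ϖ`
-/

set_option autoImplicit false

namespace Pool.Agent.Lib.MP_1a91b9_nuX.DS

variable [Pool.Agent.Lib.MP_1a91b9_nuT.CD]

open NumberField IsDedekindDomain WeierstrassCurve Pool.Agent.Lib.MP_1a91b9_nuT
open Pool.Agent.Lib.MP_1a91b9_nuX.DB

universe u

variable [HC]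

section
variable {k N : Type u} [Field k] [NumberField k] [Algebra K k] [Field N] [NumberField N]
  [Algebra K N] [Algebra k N] [IsScalarTower K k N] [DecidableEq N]

/-- the decomposition group is not trivial if `ψ v ≠ 1` modulo `ϖ` -/
theorem decomp_pi {ϖ : 𝓞 K} [IsGalois k N] {P : Pt N}
    (hF : Full k ϖ P) (w : HeightOneSpectrum (𝓞 N)) (hb : w.valuation N (bD N) = 1)
    (hl : w.valuation N (algebraMap K N (ϖ : K)) = 1)
    (hc : ¬ ϖ ∣ psi k (w.under (𝓞 k)).asIdeal - 1) :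
    ∃ σ : Gal(N/k), σ ≠ 1 ∧ gpl σ w = w := by
  obtain ⟨σ, hσ, hσw⟩ := exists_frobW (k := k) w
  refine ⟨σ, ?_, hσw⟩
  rintro rfl
  have h1 := frob w hb 1 hσ hl ((hF.ord ϖ).2 dvd_rfl)
  rw [ga_one] at h1
  apply hc
  rw [← hF.ord.sm_eq_iff, ← h1, map_one]
  rfl

/-- the decomposition group is not trivial if `ψ v ≠ 1` modulo `ϖ` -/
theorem decomp_psi {ϖ : 𝓞 K} {ℓ q : ℕ} (h : PD ϖ ℓ q) [IsGalois k N] {P : Pt N}
    (hF : Full k ϖ P) (w : HeightOneSpectrum (𝓞 N)) (hb : w.valuation N (bD N) = 1)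
    (hl : w.valuation N (ℓ : N) = 1)
    (hc : ¬ ϖ ∣ psi k (w.under (𝓞 k)).asIdeal - 1) :
    ∃ σ : Gal(N/k), σ ≠ 1 ∧ gpl σ w = w := by
  refine decomp_pi hF w hb ?_ hc
  refine le_antisymm (v_alg_le _ _) ?_
  by_contra hn
  rw [not_le] at hn
  rw [← h.val_ell hn, hl] at hn
  exact lt_irrefl _ hn

end

end Pool.Agent.Lib.MP_1a91b9_nuX.DS
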