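import Pool.Agent.Lib.MP_1a91b9_nuX.DS.Defs

/-!
# DS: automorphisms in the square

PROOF (complete; stream DS of helper29). Jobs LiA (`down`, `lift`), LiB (`exists_gamma`, `comm`), LiC
(`gpl_rs`, `fix_up`).

`down`: `σ'' = σ'.restrictScalars F : Gal(N'/F)`, `σ = σ''.restrictNormal N` (`AlgEquiv.restrictNormal_
commutes`). If `ga σ' P' = sm c P'`: `pm (ga σ P) = ga σ' (pm P) = sm c (pm P) = pm (sm c P)` (`hS.map`,
`pm_sm`; compare coordinates, `xc_pm`, `xc_ga`), `pm_inj`.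
`lift`: `ga σ P = sm c P` with `c` coprime to `ϖ` (`gal_sm`, `hS.full.ord`); `Full.all` (`¬ ϖ ∣ c`: `Full.c_ne`)
gives `σ'` with `ga σ' P' = sm c P'`; `down σ'` gives `τ` with `ga τ P = sm c P = ga σ P`, so `τ⁻¹ σ` fixes `P`,
`σ = τ` (`Full.gen`). If `ga σ P = sm d P` also, then `ϖ ∣ c - d` (`Ord.sm_eq_iff`) and
`sm d P' = sm c P' = ga σ' P'`.
`exists_gamma`: `Gal(N'/N)` has order `ℓ` (`IsGalois.card_aut_eq_finrank`, `hS.deg'`), a prime: it is
cyclic, take a generator.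
`comm`: let `a = σ'.restrictScalars F`, `g = γ.restrictScalars F` in `Gal(N'/F)`, `t = a g a⁻¹ g⁻¹`.
`t` fixes `F'` pointwise (`g` maps `F'` to itself because `F'/F` is normal, `a` is the identity on `F'`),
so it comes from an element `t'` of `Gal(N'/F')`; `t` fixes `P'`: `g` fixes `P'` (it is in the image of `N`:
`hS.map`), `a P' = sm c P'` (`gal_sm`) and all commute with `sm c` (`ga_sm`). `Full.gen`: `t' = 1`.
`gpl_rs`: `gpl` depends only on the action on the elements: the ideal of `gpl σ W` is the set of the `x`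
with `σ⁻¹ x ∈ W`.
`fix_up`: let `w = W.under (𝓞 N)`, `gpl σ w = w`, `σ'` a lift of `σ`. Then `gpl σ' W` lies above `w` (if
`x : 𝓞 N`: `x ∈ gpl σ' W` iff `σ'⁻¹ x = σ⁻¹ x ∈ W` iff `σ⁻¹ x ∈ w` iff `x ∈ gpl σ w = w`), so
`gpl σ' W = gpl (γ^i) W` for some `i` (`gpl_trans` for `N'/N`, `exists_gamma`). Put `a`, `g` as above
(commuting by `comm`), `m = [N':F'] = q - 1`: `a^m = 1`, `g^ℓ = 1`, so with `gpl a W = gpl (g^i) W`:
`gpl (a^j) W = gpl (g^(i j)) W` by induction, `W = gpl (g^(i m)) W`, and as `m` is prime to `ℓ`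
(`PD.coprime_q`) `W = gpl (g^i) W = gpl a W` (choose `m m' = 1` modulo `ℓ`).
-/

set_option autoImplicit false

namespace Pool.Agent.Lib.MP_1a91b9_nuX.DS

variable [Pool.Agent.Lib.MP_1a91b9_nuT.CD]

open NumberField IsDedekindDomain WeierstrassCurve Pool.Agent.Lib.MP_1a91b9_nuT
open Pool.Agent.Lib.MP_1a91b9_nuX.DB

universe u

/-- the map on points and an automorphism and its restriction -/
private theorem lia_pm {F F' N N' : Type u} [Field F] [Algebra K F]
    [Field F'] [Algebra K F'] [Field N] [Algebra K N] [Algebra F N] [IsScalarTower K F N]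
    [DecidableEq N] [Field N'] [Algebra K N'] [Algebra F' N'] [IsScalarTower K F' N']
    [DecidableEq N'] [Algebra N N'] [IsScalarTower K N N'] (σ : Gal(N/F)) (σ' : Gal(N'/F'))
    (hl : ∀ y : N, σ' (algebraMap N N' y) = algebraMap N N' (σ y)) (Q : Pt N) :
    pm (IsScalarTower.toAlgHom K N N') (ga σ Q) = ga σ' (pm (IsScalarTower.toAlgHom K N N') Q) := by
  by_cases hQ : Q = 0
  · subst hQ
    simp only [map_zero]
  · refine pt_ext ?_ ?_ ?_ ?_
    · intro h
      have h1 : ga σ Q = 0 := pm_inj _ (h.trans (map_zero _).symm)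
      exact hQ (pm_inj _ (h1.trans (map_zero _).symm))
    · intro h
      have h1 : pm (IsScalarTower.toAlgHom K N N') Q = 0 := pm_inj _ (h.trans (map_zero _).symm)
      exact hQ (pm_inj _ (h1.trans (map_zero _).symm))
    · rw [xc_pm, xc_ga, xc_ga, xc_pm]
      exact (hl _).symm
    · rw [yc_pm, yc_ga, yc_ga, yc_pm]
      exact (hl _).symm

section
variable {F F' N N' : Type u} [Field F] [NumberField F] [Algebra K F]
  [Field F'] [NumberField F'] [Algebra K F'] [Algebra F F'] [IsScalarTower K F F'] [IsGalois F F']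
  [Field N] [NumberField N] [Algebra K N] [Algebra F N] [IsScalarTower K F N] [DecidableEq N]
  [IsGalois F N] [Field N'] [NumberField N'] [Algebra K N'] [Algebra F' N'] [IsScalarTower K F' N']
  [DecidableEq N'] [IsGalois F' N'] [Algebra F N'] [IsScalarTower F F' N'] [IsScalarTower K F N']
  [IsGalois F N'] [Algebra N N'] [IsScalarTower K N N'] [IsScalarTower F N N'] [IsGalois N N']
  {ϖ : 𝓞 K} {ℓ q : ℕ} (h : PD ϖ ℓ q) {P : Pt N} {P' : Pt N'} (hS : Sq F F' ϖ ℓ P P')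
include hS

theorem down (σ' : Gal(N'/F')) : ∃ σ : Gal(N/F),
    (∀ y : N, σ' (algebraMap N N' y) = algebraMap N N' (σ y)) ∧
    ∀ c : 𝓞 K, ga σ' P' = sm N' c P' → ga σ P = sm N c P := by
  have hl : ∀ y : N, σ' (algebraMap N N' y) =
      algebraMap N N' ((AlgEquiv.restrictNormal (AlgEquiv.restrictScalars F σ') N) y) := by
    intro y
    have h1 := AlgEquiv.restrictNormal_commutes (AlgEquiv.restrictScalars F σ') N y
    exact h1.symm
  refine ⟨AlgEquiv.restrictNormal (AlgEquiv.restrictScalars F σ') N, hl, ?_⟩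
  intro c hc
  apply pm_inj (IsScalarTower.toAlgHom K N N')
  rw [lia_pm _ σ' hl P, pm_sm, hS.map, hc]

include h

theorem lift (σ : Gal(N/F)) : ∃ σ' : Gal(N'/F'),
    (∀ y : N, σ' (algebraMap N N' y) = algebraMap N N' (σ y)) ∧
    ∀ c : 𝓞 K, ga σ P = sm N c P → ga σ' P' = sm N' c P' := by
  obtain ⟨c, -, hc⟩ := gal_sm (k := F) h.prime.ne_zero hS.full.ord σ
  obtain ⟨σ', hσ'⟩ := hS.full'.all c (Full.c_ne h hS.full hc)
  obtain ⟨τ, hτ1, hτ2⟩ := down hS σ'
  have h1 : ga τ P = ga σ P := (hτ2 c hσ').trans hc.symm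
  have h2 : ga (τ⁻¹ * σ) P = P := by
    rw [ga_mul, ← h1, ← ga_mul, inv_mul_cancel, ga_one]
  have h3 : τ = σ := inv_mul_eq_one.1 (hS.full.gen _ h2)
  subst h3
  refine ⟨σ', hτ1, ?_⟩
  intro d hd
  have h4 : ϖ ∣ c - d := (hS.full.ord.sm_eq_iff c d).1 (hc.symm.trans hd)
  rw [hσ']
  exact (hS.full'.ord.sm_eq_iff c d).2 h4

end

open NumberField IsDedekindDomain WeierstrassCurve Pool.Agent.Lib.MP_1a91b9_nuT
open Pool.Agent.Lib.MP_1a91b9_nuX.DB

private theorem lib_fix {L : Type u} [Field L] [Algebra K L] [DecidableEq L] (f : L →ₐ[K] L)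
    (Q : Pt L) (hx : f (xc Q) = xc Q) (hy : f (yc Q) = yc Q) : pm f Q = Q := by
  by_cases h0 : Q = 0
  · rw [h0, map_zero]
  · refine pt_ext ?_ h0 (by rw [xc_pm, hx]) (by rw [yc_pm, hy])
    intro e
    exact h0 (pm_inj f (by rw [e, map_zero]))

section
variable {F F' N N' : Type u} [Field F] [NumberField F] [Algebra K F]
  [Field F'] [NumberField F'] [Algebra K F'] [Algebra F F'] [IsScalarTower K F F'] [IsGalois F F']
  [Field N] [NumberField N] [Algebra K N] [Algebra F N] [IsScalarTower K F N] [DecidableEq N]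
  [IsGalois F N] [Field N'] [NumberField N'] [Algebra K N'] [Algebra F' N'] [IsScalarTower K F' N']
  [DecidableEq N'] [IsGalois F' N'] [Algebra F N'] [IsScalarTower F F' N'] [IsScalarTower K F N']
  [IsGalois F N'] [Algebra N N'] [IsScalarTower K N N'] [IsScalarTower F N N'] [IsGalois N N']
  {ϖ : 𝓞 K} {ℓ q : ℕ} (h : PD ϖ ℓ q) {P : Pt N} {P' : Pt N'} (hS : Sq F F' ϖ ℓ P P')
include hS

include h

theorem exists_gamma : ∃ γ : Gal(N'/N), (∀ τ : Gal(N'/N), ∃ i : ℕ, τ = γ ^ i) ∧ γ ^ ℓ = 1 ∧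
    γ ≠ 1 := by
  have hp : Fact ℓ.Prime := ⟨h.hl⟩
  have hfin : FiniteDimensional N N' :=
    Module.finite_of_finrank_pos (by rw [hS.deg']; exact h.hl.pos)
  have hcard : Nat.card Gal(N'/N) = ℓ := by rw [IsGalois.card_aut_eq_finrank, hS.deg']
  have hcyc : IsCyclic Gal(N'/N) := isCyclic_of_prime_card hcard
  have hfg : Finite Gal(N'/N) := Nat.finite_of_card_ne_zero (by rw [hcard]; exact h.hl.ne_zero)
  obtain ⟨γ, hγ⟩ := IsCyclic.exists_monoid_generator (α := Gal(N'/N))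
  refine ⟨γ, fun τ => ?_, ?_, ?_⟩
  · obtain ⟨i, hi⟩ := hγ τ
    exact ⟨i, hi.symm⟩
  · rw [← hcard]
    exact pow_card_eq_one'
  · rintro rfl
    have h1 : ∀ τ : Gal(N'/N), τ = 1 := by
      intro τ
      obtain ⟨i, hi⟩ := hγ τ
      rw [← hi]
      exact one_pow i
    have h2 : Nat.card Gal(N'/N) = 1 := Nat.card_eq_one_iff_unique.2
      ⟨⟨fun a b => by rw [h1 a, h1 b]⟩, ⟨1⟩⟩
    rw [hcard] at h2
    exact h.hl.one_lt.ne' h2

theorem comm (γ : Gal(N'/N)) (σ' : Gal(N'/F')) (y : N') : σ' (γ y) = γ (σ' y) := by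
  set a : Gal(N'/F) := σ'.restrictScalars F with ha
  set g : Gal(N'/F) := γ.restrictScalars F with hg
  have hg1 : ga g P' = P' := by
    refine lib_fix _ P' ?_ ?_
    · show γ (xc P') = xc P'
      rw [← hS.map, xc_pm]
      exact γ.commutes _
    · show γ (yc P') = yc P'
      rw [← hS.map, yc_pm]
      exact γ.commutes _
  obtain ⟨c, -, hc⟩ := gal_sm h.prime.ne_zero hS.full'.ord a
  have h1 : ga (a * g) P' = ga (g * a) P' := by
    rw [ga_mul, ga_mul, hg1, hc, ga_sm, hg1]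
  have h2 : ga ((g * a)⁻¹ * (a * g)) P' = P' := by
    rw [ga_mul, h1, ← ga_mul, inv_mul_cancel, ga_one]
  have h3 : ∀ x : F', ((g * a)⁻¹ * (a * g) : Gal(N'/F)) (algebraMap F' N' x) =
      algebraMap F' N' x := by
    intro x
    have e1 : g (algebraMap F' N' x) = algebraMap F' N' (g.restrictNormal F' x) :=
      (AlgEquiv.restrictNormal_commutes g F' x).symm
    have e2 : a (g (algebraMap F' N' x)) = g (algebraMap F' N' x) := by
      rw [e1]
      exact σ'.commutes _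
    have e3 : a (algebraMap F' N' x) = algebraMap F' N' x := σ'.commutes _
    have e4 : (a * g : Gal(N'/F)) (algebraMap F' N' x) = (g * a : Gal(N'/F)) (algebraMap F' N' x) := by
      show a (g (algebraMap F' N' x)) = g (a (algebraMap F' N' x))
      rw [e2, e3]
    rw [AlgEquiv.mul_apply, e4, ← AlgEquiv.mul_apply, inv_mul_cancel, AlgEquiv.one_apply]
  have h4 : (AlgEquiv.ofRingEquiv
      (f := ((g * a)⁻¹ * (a * g) : Gal(N'/F)).toRingEquiv) h3 : Gal(N'/F')) = 1 := by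
    refine hS.full'.gen _ ?_
    have e : ga (AlgEquiv.ofRingEquiv
      (f := ((g * a)⁻¹ * (a * g) : Gal(N'/F)).toRingEquiv) h3 : Gal(N'/F')) P' =
        ga ((g * a)⁻¹ * (a * g)) P' := by
      have e0 : (((AlgEquiv.ofRingEquiv
        (f := ((g * a)⁻¹ * (a * g) : Gal(N'/F)).toRingEquiv) h3 : Gal(N'/F')) : N' →ₐ[F'] N').restrictScalars K) =
          ((((g * a)⁻¹ * (a * g) : Gal(N'/F)) : N' →ₐ[F] N').restrictScalars K) :=
        AlgHom.ext fun y => rfl
      show pm _ P' = pm _ P'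
      rw [e0]
    rw [e, h2]
  have h5 : ((g * a)⁻¹ * (a * g) : Gal(N'/F)) y = y :=
    congrArg (fun τ : Gal(N'/F') => τ y) h4
  have h6 : (a * g : Gal(N'/F)) y = (g * a : Gal(N'/F)) y := by
    have e7 : (g * a : Gal(N'/F)) (((g * a)⁻¹ * (a * g) : Gal(N'/F)) y) = (g * a : Gal(N'/F)) y :=
      congrArg (fun z => (g * a : Gal(N'/F)) z) h5
    rw [← AlgEquiv.mul_apply, mul_inv_cancel_left] at e7
    exact e7
  exact h6

end

open NumberField IsDedekindDomain WeierstrassCurve Pool.Agent.Lib.MP_1a91b9_nuT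
open Pool.Agent.Lib.MP_1a91b9_nuX.DB


private theorem lic_comm {F F' L : Type u} [Field F] [Field F'] [Field L] [NumberField L]
    [Algebra F L] [Algebra F' L] (σ : Gal(L/F)) (τ : Gal(L/F')) (h : ∀ x : L, σ (τ x) = τ (σ x))
    (W : HeightOneSpectrum (𝓞 L)) : gpl σ (gpl τ W) = gpl τ (gpl σ W) := by
  apply HeightOneSpectrum.ext
  ext x
  change τ⁻¹ • σ⁻¹ • x ∈ W.asIdeal ↔ σ⁻¹ • τ⁻¹ • x ∈ W.asIdeal
  have e : τ⁻¹ • σ⁻¹ • x = σ⁻¹ • τ⁻¹ • x := by
    apply RingOfIntegers.ext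
    change τ⁻¹ (σ⁻¹ (x : L)) = σ⁻¹ (τ⁻¹ (x : L))
    apply τ.injective
    apply σ.injective
    have e1 : τ (τ⁻¹ (σ⁻¹ (x : L))) = σ⁻¹ (x : L) := τ.apply_symm_apply _
    have e2 : σ (σ⁻¹ (x : L)) = x := σ.apply_symm_apply x
    have e3 : σ (σ⁻¹ (τ⁻¹ (x : L))) = τ⁻¹ (x : L) := σ.apply_symm_apply _
    have e4 : τ (τ⁻¹ (x : L)) = x := τ.apply_symm_apply x
    rw [e1, e2, h, e3, e4]
  rw [e]

section
variable {F F' N N' : Type u} [Field F] [NumberField F] [Algebra K F]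
  [Field F'] [NumberField F'] [Algebra K F'] [Algebra F F'] [IsScalarTower K F F'] [IsGalois F F']
  [Field N] [NumberField N] [Algebra K N] [Algebra F N] [IsScalarTower K F N] [DecidableEq N]
  [IsGalois F N] [Field N'] [NumberField N'] [Algebra K N'] [Algebra F' N'] [IsScalarTower K F' N']
  [DecidableEq N'] [IsGalois F' N'] [Algebra F N'] [IsScalarTower F F' N'] [IsScalarTower K F N']
  [IsGalois F N'] [Algebra N N'] [IsScalarTower K N N'] [IsScalarTower F N N'] [IsGalois N N']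
  {ϖ : 𝓞 K} {ℓ q : ℕ} (h : PD ϖ ℓ q) {P : Pt N} {P' : Pt N'} (hS : Sq F F' ϖ ℓ P P')
include hS

include h

/-- a decomposition element of the lower extension lifts to a decomposition element -/
theorem fix_up (W : HeightOneSpectrum (𝓞 N')) {σ : Gal(N/F)}
    (hσ : gpl σ (W.under (𝓞 N)) = W.under (𝓞 N)) {σ' : Gal(N'/F')}
    (hl : ∀ y : N, σ' (algebraMap N N' y) = algebraMap N N' (σ y)) : gpl σ' W = W := by
  have hsm : ∀ x : 𝓞 N, σ'⁻¹ • (algebraMap (𝓞 N) (𝓞 N') x) = algebraMap (𝓞 N) (𝓞 N') (σ⁻¹ • x) := by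
    intro x
    apply RingOfIntegers.ext
    change σ'⁻¹ (algebraMap N N' (x : N)) = algebraMap N N' (σ⁻¹ (x : N))
    apply σ'.injective
    have e1 : σ' (σ'⁻¹ (algebraMap N N' (x : N))) = algebraMap N N' (x : N) :=
      σ'.apply_symm_apply _
    have e2 : σ (σ⁻¹ (x : N)) = x := σ.apply_symm_apply x
    rw [e1, hl, e2]
  have hu : W.under (𝓞 N) = (gpl σ' W).under (𝓞 N) := by
    apply HeightOneSpectrum.ext
    ext x
    have h1 : x ∈ (W.under (𝓞 N)).asIdeal ↔ σ⁻¹ • x ∈ (W.under (𝓞 N)).asIdeal := by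
      have h2 : x ∈ (gpl σ (W.under (𝓞 N))).asIdeal ↔ σ⁻¹ • x ∈ (W.under (𝓞 N)).asIdeal := Iff.rfl
      rw [← h2, hσ]
    rw [h1]
    change algebraMap (𝓞 N) (𝓞 N') (σ⁻¹ • x) ∈ W.asIdeal ↔
      σ'⁻¹ • (algebraMap (𝓞 N) (𝓞 N') x) ∈ W.asIdeal
    rw [hsm]
  obtain ⟨τ, hτ⟩ := gpl_trans (k := N) W (gpl σ' W) hu
  obtain ⟨γ, hγ, hγl, -⟩ := exists_gamma h hS
  obtain ⟨i, hi⟩ := hγ τ
  have hτl : τ ^ ℓ = 1 := by
    rw [hi, ← pow_mul, mul_comm, pow_mul, hγl, one_pow]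
  have hc : ∀ V : HeightOneSpectrum (𝓞 N'), gpl σ' (gpl τ V) = gpl τ (gpl σ' V) := fun V =>
    lic_comm σ' τ (comm h hS τ σ') V
  have hcj : ∀ (j : ℕ) (V : HeightOneSpectrum (𝓞 N')),
      gpl σ' (gpl (τ ^ j) V) = gpl (τ ^ j) (gpl σ' V) := fun j V =>
    lic_comm σ' (τ ^ j) (comm h hS (τ ^ j) σ') V
  have hj : ∀ j : ℕ, gpl (σ' ^ j) W = gpl (τ ^ j) W := by
    intro j
    induction j with
    | zero => rw [pow_zero, pow_zero, gpl_one, gpl_one]
    | succ j ih =>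
      rw [pow_succ', gpl_mul, ih, hcj, ← hτ, ← gpl_mul, ← pow_succ]
  have hcard : Nat.card Gal(N'/F') + 1 = q := by
    rw [IsGalois.card_aut_eq_finrank]
    exact Full.card h hS.full'
  have hs1 : σ' ^ (q - 1) = 1 := by
    have : q - 1 = Nat.card Gal(N'/F') := by omega
    rw [this]
    exact pow_card_eq_one'
  have hW : gpl (τ ^ (q - 1)) W = W := by
    rw [← hj, hs1, gpl_one]
  have hWk : ∀ k : ℕ, gpl (τ ^ ((q - 1) * k)) W = W := by
    intro k
    induction k with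
    | zero => rw [mul_zero, pow_zero, gpl_one]
    | succ k ih => rw [mul_add, mul_one, pow_add, gpl_mul, hW, ih]
  have hl1 : 1 < ℓ := h.hl.one_lt
  obtain ⟨m, -, hm⟩ := Nat.exists_mul_mod_eq_one_of_coprime h.coprime_q hl1
  have hm2 : τ ^ ((q - 1) * m) = τ := by
    rw [← Nat.div_add_mod ((q - 1) * m) ℓ, hm, pow_add, pow_mul, hτl, one_pow, one_mul, pow_one]
  rw [← hτ]
  have := hWk m
  rwa [hm2] at this

end

end Pool.Agent.Lib.MP_1a91b9_nuX.DS
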