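import Pool.Agent.Lib.MP_1a91b9_nuX.DS.Lift

/-!
# DS: a fixed class in the Selmer group

PROOF (complete; stream DS of helper29). Jobs SeA (`wloc_*`, `vv_mul`, `vv_inv`, `vv_one`), SeB
(`vv_gamma`), SeC (`nilp`, `exists_fixed`).

`wloc_mul`: for `(b, c)`, `(b', c')` take `(b b', c c')`: `y y' (b b')^ℓ - (c c')^ℓ = y b^ℓ (y' b'^ℓ - c'^ℓ) +
c'^ℓ (y b^ℓ - c^ℓ)` and `w (c'^ℓ) = 1` (as `w (y' b'^ℓ) = 1` and the difference has `w < 1`). `wloc_inv`:
`(b⁻¹, c⁻¹)`: `(y b^ℓ)⁻¹ - c^(-ℓ) = (c^ℓ - y b^ℓ)/(y b^ℓ c^ℓ)`, all of valuation `1` below. `wloc_pow`: `(z^ℓ)`: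
`b = z⁻¹`, `c = 1`. `wloc_gpl`: transport by `gpl_val` (with `ℓ`-th powers mapped by the automorphism).
`vv_mul`, `vv_inv`, `vv_one`: `Iso.mul`, `Iso.inv`, `Iso.one`; orders `od_mul`, `od_inv`, `od_one`.

`vv_gamma`: orders: `od w (γ y) = od (gpl γ⁻¹ w) y` (`gpl_od`, `gpl_mul`, `gpl_one`). Isotypic: with
`A` for `y`: `el (sg τ (sg γ y)) = el (sg γ (sg τ y))` (`comm`, `τ ∈ Gal(N'/F')`) `= elm ℓ (sg γ ·) (A c)`: take
`(elm ℓ g).comp A`, `g : N'ˣ →* N'ˣ` the map `sg γ` (a `Units.map`). Local condition at `w`: that of `y` at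
`gpl γ⁻¹ w` (`wloc_gpl`; the valuation of `ϖ` is the same: `gpl_val`, `γ` fixes the image of `K`).

`nilp`: `M` an additive group killed by the prime `ℓ`, `g : M →+ M` with `g^ℓ = 1` (iterates) and `x ≠ 0`
in a subset `S` which is closed under `y ↦ g y - y`: there is `y ∈ S`, `y ≠ 0`, `g y = y`. In the ring
`AddMonoid.End M` one has `(ℓ : End) = 0`, so `(g - 1)^ℓ = g^ℓ - 1 = 0` (`sub_pow_char_of_commute` with
`CharP`, or expand with `Commute.add_pow` and `ℓ ∣ choose ℓ i`). Let `j` be the least with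
`(g - 1)^(j+1) x = 0`; `y = (g - 1)^j x`.

`exists_fixed`: `M = El ℓ N'`, `g = elm ℓ (sg γ ·)`, `S` = the classes of the `y` with `VV`. `g^ℓ = 1` since
`γ^ℓ = 1`. The result `g (el a) = el a` means `el (sg γ a) = el a`: `el_eq`.
-/

set_option autoImplicit false

namespace Pool.Agent.Lib.MP_1a91b9_nuX.DS

variable [Pool.Agent.Lib.MP_1a91b9_nuT.CD]

open NumberField IsDedekindDomain WeierstrassCurve Pool.Agent.Lib.MP_1a91b9_nuT
open Pool.Agent.Lib.MP_1a91b9_nuX.DB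

universe u

section
variable {N : Type u} [Field N] [NumberField N] {ℓ : ℕ} {w : HeightOneSpectrum (𝓞 N)}

private theorem sea_exp_lt : (WithZero.exp (-2 : ℤ)) < 1 := by
  rw [← WithZero.exp_zero]
  exact WithZero.exp_lt_exp.mpr (by norm_num)

private theorem sea_val {a c : N} (h1 : w.valuation N a = 1)
    (h2 : w.valuation N (a - c) ≤ WithZero.exp (-2 : ℤ)) : w.valuation N c = 1 := by
  have h3 : w.valuation N (c - a) < w.valuation N a := by
    rw [h1, Valuation.map_sub_swap]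
    exact lt_of_le_of_lt h2 sea_exp_lt
  rw [Valuation.map_eq_of_sub_lt _ h3, h1]

theorem wloc_mul {y y' : N} (h : WLoc ℓ w y) (h' : WLoc ℓ w y') : WLoc ℓ w (y * y') := by
  obtain ⟨b, c, h1, h2⟩ := h
  obtain ⟨b', c', h1', h2'⟩ := h'
  have h3 : w.valuation N (c' ^ ℓ) = 1 := sea_val h1' h2'
  refine ⟨b * b', c * c', ?_, ?_⟩
  · have e : y * y' * (b * b') ^ ℓ = (y * b ^ ℓ) * (y' * b' ^ ℓ) := by rw [mul_pow]; ring
    rw [e, map_mul, h1, h1', mul_one]
  · have e : y * y' * (b * b') ^ ℓ - (c * c') ^ ℓ =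
        (y * b ^ ℓ) * (y' * b' ^ ℓ - c' ^ ℓ) + c' ^ ℓ * (y * b ^ ℓ - c ^ ℓ) := by
      rw [mul_pow, mul_pow]; ring
    rw [e]
    refine Valuation.map_add_le _ ?_ ?_
    · rw [map_mul, h1, one_mul]
      exact h2'
    · rw [map_mul, h3, one_mul]
      exact h2

theorem wloc_inv {y : N} (h : WLoc ℓ w y) : WLoc ℓ w y⁻¹ := by
  obtain ⟨b, c, h1, h2⟩ := h
  have h3 : w.valuation N (c ^ ℓ) = 1 := sea_val h1 h2
  have h4 : y * b ^ ℓ ≠ 0 := by
    intro h0
    rw [h0, map_zero] at h1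
    exact zero_ne_one h1
  have h5 : c ^ ℓ ≠ 0 := by
    intro h0
    rw [h0, map_zero] at h3
    exact zero_ne_one h3
  have e1 : y⁻¹ * b⁻¹ ^ ℓ = (y * b ^ ℓ)⁻¹ := by rw [mul_inv, inv_pow]
  refine ⟨b⁻¹, c⁻¹, ?_, ?_⟩
  · rw [e1, map_inv₀, h1, inv_one]
  · have e : y⁻¹ * b⁻¹ ^ ℓ - c⁻¹ ^ ℓ = (c ^ ℓ - y * b ^ ℓ) * ((y * b ^ ℓ)⁻¹ * (c ^ ℓ)⁻¹) := by
      rw [e1, inv_pow, sub_mul]
      congr 1
      · rw [mul_left_comm, mul_inv_cancel₀ h5, mul_one]
      · rw [← mul_assoc, mul_inv_cancel₀ h4, one_mul]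
    rw [e, map_mul, map_mul, map_inv₀, map_inv₀, h1, h3, inv_one, mul_one, mul_one,
      Valuation.map_sub_swap]
    exact h2


theorem wloc_gpl {k : Type u} [Field k] [NumberField k] [Algebra k N] (σ : Gal(N/k)) {y : N}
    (h : WLoc ℓ w y) : WLoc ℓ (gpl σ w) (σ y) := by
  obtain ⟨b, c, h1, h2⟩ := h
  refine ⟨σ b, σ c, ?_, ?_⟩
  · rw [← map_pow, ← map_mul, gpl_val]
    exact h1
  · rw [← map_pow, ← map_mul, ← map_pow, ← map_sub, gpl_val]
    exact h2

end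

section
variable {k N : Type u} [Field k] [NumberField k] [Algebra K k] [Field N] [NumberField N]
  [Algebra K N] [Algebra k N] [IsScalarTower K k N] [DecidableEq N]
  {ϖ : 𝓞 K} {ℓ q : ℕ} (h : PD ϖ ℓ q) {P : Pt N} (hF : Full k ϖ P)
include h hF


theorem vv_mul {a b : Nˣ} (ha : VV k ϖ ℓ P a) (hb : VV k ϖ ℓ P b) : VV k ϖ ℓ P (a * b) where
  od := by
    intro w
    rw [Units.val_mul, od_mul w a.ne_zero b.ne_zero]
    exact dvd_add (ha.od w) (hb.od w)
  iso := Iso.mul h hF ha.iso hb.iso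
  loc := by
    intro w hw
    rw [Units.val_mul]
    exact wloc_mul (ha.loc w hw) (hb.loc w hw)

theorem vv_inv {a : Nˣ} (ha : VV k ϖ ℓ P a) : VV k ϖ ℓ P a⁻¹ where
  od := by
    intro w
    rw [Units.val_inv_eq_inv_val, od_inv]
    exact (ha.od w).neg_right
  iso := Iso.inv h hF ha.iso
  loc := by
    intro w hw
    rw [Units.val_inv_eq_inv_val]
    exact wloc_inv (ha.loc w hw)

end

section
variable {F F' N N' : Type u} [Field F] [NumberField F] [Algebra K F]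
  [Field F'] [NumberField F'] [Algebra K F'] [Algebra F F'] [IsScalarTower K F F'] [IsGalois F F']
  [Field N] [NumberField N] [Algebra K N] [Algebra F N] [IsScalarTower K F N] [DecidableEq N]
  [IsGalois F N] [Field N'] [NumberField N'] [Algebra K N'] [Algebra F' N'] [IsScalarTower K F' N']
  [DecidableEq N'] [IsGalois F' N'] [Algebra F N'] [IsScalarTower F F' N'] [IsScalarTower K F N']
  [IsGalois F N'] [Algebra N N'] [IsScalarTower K N N'] [IsScalarTower F N N'] [IsGalois N N']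
  {ϖ : 𝓞 K} {ℓ q : ℕ} (h : PD ϖ ℓ q) {P : Pt N} {P' : Pt N'} (hS : Sq F F' ϖ ℓ P P')
include h hS

end

open NumberField IsDedekindDomain WeierstrassCurve Pool.Agent.Lib.MP_1a91b9_nuT
open Pool.Agent.Lib.MP_1a91b9_nuX.DB

section
variable {N : Type u} [Field N] [NumberField N] {ℓ : ℕ} {w : HeightOneSpectrum (𝓞 N)}

end

section
variable {k N : Type u} [Field k] [NumberField k] [Algebra K k] [Field N] [NumberField N]
  [Algebra K N] [Algebra k N] [IsScalarTower K k N] [DecidableEq N]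
  {ϖ : 𝓞 K} {ℓ q : ℕ} (h : PD ϖ ℓ q) {P : Pt N} (hF : Full k ϖ P)
include h hF

end

section
variable {F F' N N' : Type u} [Field F] [NumberField F] [Algebra K F]
  [Field F'] [NumberField F'] [Algebra K F'] [Algebra F F'] [IsScalarTower K F F'] [IsGalois F F']
  [Field N] [NumberField N] [Algebra K N] [Algebra F N] [IsScalarTower K F N] [DecidableEq N]
  [IsGalois F N] [Field N'] [NumberField N'] [Algebra K N'] [Algebra F' N'] [IsScalarTower K F' N']
  [DecidableEq N'] [IsGalois F' N'] [Algebra F N'] [IsScalarTower F F' N'] [IsScalarTower K F N']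
  [IsGalois F N'] [Algebra N N'] [IsScalarTower K N N'] [IsScalarTower F N N'] [IsGalois N N']
  {ϖ : 𝓞 K} {ℓ q : ℕ} (h : PD ϖ ℓ q) {P : Pt N} {P' : Pt N'} (hS : Sq F F' ϖ ℓ P P')
include h hS

theorem vv_gamma (γ : Gal(N'/N)) {y : N'ˣ} (hy : VV F' ϖ ℓ P' y) : VV F' ϖ ℓ P' (sg γ y) := by
  have hback : ∀ w : HeightOneSpectrum (𝓞 N'), gpl γ (gpl γ⁻¹ w) = w := by
    intro w
    rw [← gpl_mul, mul_inv_cancel, gpl_one]
  refine ⟨fun w => ?_, ?_, fun w hw => ?_⟩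
  · rw [sg_coe, ← hback w, gpl_od]
    exact hy.od _
  · obtain ⟨A, hA⟩ := hy.iso
    refine ⟨(elm ℓ (Units.map (γ : N' →* N'))).comp A, fun σ c hc => ?_⟩
    have e1 : sg σ (sg γ y) = sg γ (sg σ y) := by
      refine Units.ext ?_
      rw [sg_coe, sg_coe, sg_coe, sg_coe]
      exact comm h hS γ σ _
    rw [e1, AddMonoidHom.comp_apply, ← hA σ c hc, elm_el]
    rfl
  · have e1 : γ (algebraMap K N' (ϖ : K)) = algebraMap K N' (ϖ : K) := by
      rw [IsScalarTower.algebraMap_apply K N N', AlgEquiv.commutes]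
    have e2 : (gpl γ⁻¹ w).valuation N' (algebraMap K N' (ϖ : K)) < 1 := by
      rw [← gpl_val γ, hback w, e1]
      exact hw
    have e3 := wloc_gpl γ (hy.loc _ e2)
    rw [hback w] at e3
    exact e3

end

open NumberField IsDedekindDomain WeierstrassCurve Pool.Agent.Lib.MP_1a91b9_nuT
open Pool.Agent.Lib.MP_1a91b9_nuX.DB

section
variable {N : Type u} [Field N] [NumberField N] {ℓ : ℕ} {w : HeightOneSpectrum (𝓞 N)}

end

section
variable {k N : Type u} [Field k] [NumberField k] [Algebra K k] [Field N] [NumberField N]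
  [Algebra K N] [Algebra k N] [IsScalarTower K k N] [DecidableEq N]
  {ϖ : 𝓞 K} {ℓ q : ℕ} (h : PD ϖ ℓ q) {P : Pt N} (hF : Full k ϖ P)
include h hF

end

/-- a unipotent operator has a fixed vector -/
theorem nilp {M : Type u} [AddCommGroup M] {ℓ : ℕ} (hℓ : ℓ.Prime) (hM : ∀ x : M, ℓ • x = 0)
    (g : M →+ M) (hg : ∀ x : M, (g : M → M)^[ℓ] x = x) (S : Set M)
    (hS : ∀ y ∈ S, g y - y ∈ S) {x : M} (hx : x ∈ S) (hx0 : x ≠ 0) :
    ∃ y ∈ S, y ≠ 0 ∧ g y = y := by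
  obtain ⟨G, hG⟩ : ∃ G : AddMonoid.End M, G = g := ⟨g, rfl⟩
  have hGx : ∀ y : M, G y = g y := by
    intro y
    rw [hG]
    rfl
  have hpow : ∀ (n : ℕ) (y : M), (G ^ n) y = (g : M → M)^[n] y := by
    intro n
    induction n with
    | zero =>
      intro y
      rw [pow_zero, Function.iterate_zero, AddMonoid.End.coe_one]
    | succ n ih =>
      intro y
      rw [pow_succ, Function.iterate_succ, Function.comp_apply, ← ih, ← hGx]
      rfl
  have hnt : Nontrivial (AddMonoid.End M) := by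
    refine ⟨⟨1, 0, fun h => hx0 ?_⟩⟩
    have h2 := DFunLike.congr_fun h x
    exact h2
  have hℓ0 : ((ℓ : ℕ) : AddMonoid.End M) = 0 := by
    refine AddMonoidHom.ext fun y => ?_
    exact hM y
  have hrc : ringChar (AddMonoid.End M) = ℓ :=
    ((Nat.dvd_prime hℓ).1 (ringChar.dvd hℓ0)).resolve_left CharP.ringChar_ne_one
  have : CharP (AddMonoid.End M) ℓ := ringChar.of_eq hrc
  have : Fact ℓ.Prime := ⟨hℓ⟩
  have hD : (G - 1) ^ ℓ = 0 := by
    rw [sub_pow_char_of_commute _ (Commute.one_right G), one_pow, sub_eq_zero]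
    refine AddMonoidHom.ext fun y => ?_
    change (G ^ ℓ) y = y
    rw [hpow, hg]
  have hSn : ∀ n : ℕ, ((G - 1) ^ n) x ∈ S := by
    intro n
    induction n with
    | zero =>
      rw [pow_zero]
      exact hx
    | succ n ih =>
      rw [pow_succ']
      have h3 := hS _ ih
      rw [← hGx] at h3
      exact h3
  have hex : ∃ n : ℕ, ((G - 1) ^ n) x = 0 := ⟨ℓ, by rw [hD]; rfl⟩
  classical
  obtain ⟨n, hn, hmin⟩ : ∃ n : ℕ, ((G - 1) ^ n) x = 0 ∧ ∀ m < n, ((G - 1) ^ m) x ≠ 0 :=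
    ⟨Nat.find hex, Nat.find_spec hex, fun m hm => Nat.find_min hex hm⟩
  cases n with
  | zero =>
    exfalso
    rw [pow_zero] at hn
    exact hx0 hn
  | succ n =>
    refine ⟨((G - 1) ^ n) x, hSn n, hmin n (Nat.lt_succ_self n), ?_⟩
    rw [pow_succ'] at hn
    have h4 : G (((G - 1) ^ n) x) - ((G - 1) ^ n) x = 0 := hn
    rw [← hGx]
    exact sub_eq_zero.1 h4

section
variable {F F' N N' : Type u} [Field F] [NumberField F] [Algebra K F]
  [Field F'] [NumberField F'] [Algebra K F'] [Algebra F F'] [IsScalarTower K F F'] [IsGalois F F']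
  [Field N] [NumberField N] [Algebra K N] [Algebra F N] [IsScalarTower K F N] [DecidableEq N]
  [IsGalois F N] [Field N'] [NumberField N'] [Algebra K N'] [Algebra F' N'] [IsScalarTower K F' N']
  [DecidableEq N'] [IsGalois F' N'] [Algebra F N'] [IsScalarTower F F' N'] [IsScalarTower K F N']
  [IsGalois F N'] [Algebra N N'] [IsScalarTower K N N'] [IsScalarTower F N N'] [IsGalois N N']
  {ϖ : 𝓞 K} {ℓ q : ℕ} (h : PD ϖ ℓ q) {P : Pt N} {P' : Pt N'} (hS : Sq F F' ϖ ℓ P P')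
include h hS

theorem exists_fixed {γ : Gal(N'/N)} (hγ : γ ^ ℓ = 1) {y : N'ˣ} (hy : VV F' ϖ ℓ P' y)
    (hn : ¬ ∃ z : N'ˣ, y = z ^ ℓ) : ∃ a b : N'ˣ, VV F' ϖ ℓ P' a ∧ (¬ ∃ z : N'ˣ, a = z ^ ℓ) ∧
      sg γ a = a * b ^ ℓ := by
  have h1 : ∀ (n : ℕ) (a : N'ˣ),
      (elm ℓ (Units.map (γ : N' →* N')) : El ℓ N' → El ℓ N')^[n] (el ℓ a) =
        el ℓ (sg (γ ^ n) a) := by
    intro n
    induction n with
    | zero =>
      intro a
      rw [Function.iterate_zero, pow_zero]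
      rfl
    | succ n ih =>
      intro a
      rw [Function.iterate_succ, Function.comp_apply, elm_el, ih, pow_succ]
      rfl
  obtain ⟨z, ⟨a, ha, rfl⟩, hz0, hgz⟩ := nilp h.hl (nsmul_el (ℓ := ℓ) (F := N'))
    (elm ℓ (Units.map (γ : N' →* N')))
    (by
      intro x
      obtain ⟨a, rfl⟩ := el_surj x
      rw [h1, hγ]
      rfl) {z | ∃ a : N'ˣ, VV F' ϖ ℓ P' a ∧ el ℓ a = z}
    (by
      rintro _ ⟨a, ha, rfl⟩
      refine ⟨sg γ a * a⁻¹, vv_mul h hS.full' (vv_gamma h hS γ ha) (vv_inv h hS.full' ha), ?_⟩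
      rw [el_mul, el_inv, elm_el, sub_eq_add_neg]
      rfl) ⟨y, hy, rfl⟩ (fun h0 => hn (el_eq_zero.1 h0))
  rw [elm_el] at hgz
  obtain ⟨b, hb⟩ := el_eq.1 hgz
  exact ⟨a, b, ha, fun h0 => hz0 (el_eq_zero.2 h0), hb⟩

end

end Pool.Agent.Lib.MP_1a91b9_nuX.DS
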