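import Pool.Agent.Lib.MP_1a91b9_nuX.DS.Defs

/-!
# DS: existence of the square `F ⊆ F'`, `N ⊆ N'`

PROOF (complete; stream DS of helper29). Jobs SqA (`sq_galois`), SqB (`exists_sub`), SqC (`exists_sq`).

`F'/F` is Galois of degree `ℓ`, `N'/F'` is the field of the points killed by `ϖ` (`Full F' ϖ P'`).

`sq_galois`: `N'/F` is Galois. `N'/F` is finite separable; normal: `N' = F'(xc P', yc P')` (the fixing
subgroup of `IntermediateField.adjoin F' {xc P', yc P'}` in `Gal(N'/F')` is trivial by `Full.gen` (an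
automorphism which fixes `xc P'` and `yc P'` fixes `P'`: `xc_ga`, `yc_ga`, `pt_ext`), so the adjoin is `⊤`).
Let `Ω` be an algebraic closure of `N'` (normal over `F`); every `σ : Ω ≃ₐ[F] Ω` (or `Ω →ₐ[F] Ω`) maps the
image of `F'` onto itself (`AlgEquiv.restrictNormal`) and the image of `P'` to a point of annihilator `ϖ`,
that is `sm c P'` (`ord_cases`), whose coordinates are in the image of `N'`. This is the private lemma
`exb_stable` (and `exb_mem`) of the delivered file MP_1a91b9_nt_DB_ExB.lean (team store): copy them; with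
`k0 = F`, `k = F'`. Then `IntermediateField.normal_iff_forall_map_le'` for the image of `N'` in `Ω`, and
transfer to `N'` (`Normal.of_algEquiv`). Alternatively: `Normal F N'` from: `N'` is generated over `F` by
elements all of whose conjugates are in `N'`.

`exists_sub`: `N = IntermediateField.adjoin F {xc P', yc P'}` inside `N'` (as in the proof of `exists_ext` in
MP_1a91b9_nt_DB_ExB.lean, with `Ω := N'` which is Galois over `F`, `k0 = k = F`: `exb_stable` with
`g : N' →ₐ[K] ℂ` from `exists_emb`). `P = mkPt ⟨xc P', _⟩ ⟨yc P', _⟩ _`.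

`exists_sq`: from `exists_sub`. `Full F ϖ P`: `gen` is given. `all`: for `c` prime to `ϖ` take
`σ' ∈ Gal(N'/F')` with `ga σ' P' = sm c P'` (`Full.all`), `σ'' = σ'.restrictScalars F`,
`σ = σ''.restrictNormal N`; `pm (ga σ P) = ga σ' P' = sm c P' = pm (sm c P)` (`pm_sm`; coordinates), `pm_inj`.
Degrees: `[N':F'] + 1 = q = [N:F] + 1` (`Full.card`, with `h`), `[N':N] [N:F] = [N':F] = [N':F'] [F':F]`,
so `[N':N] = ℓ`.
-/

set_option autoImplicit false

namespace Pool.Agent.Lib.MP_1a91b9_nuX.DS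

variable [Pool.Agent.Lib.MP_1a91b9_nuT.CD]

open NumberField IsDedekindDomain WeierstrassCurve Pool.Agent.Lib.MP_1a91b9_nuT
open Pool.Agent.Lib.MP_1a91b9_nuX.DB

universe u

private theorem sqa_tower {k Ω : Type u} [Field k] [Algebra K k] [Field Ω] [Algebra K Ω]
    [Algebra k Ω] [IsScalarTower K k Ω] (L : IntermediateField k Ω) : IsScalarTower K L Ω :=
  IsScalarTower.of_algebraMap_eq fun _ => rfl

/-- the subfield generated by the coordinates of a point -/
private theorem sqa_mem {k Ω : Type u} [Field k] [Algebra K k] [Field Ω] [Algebra K Ω]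
    [Algebra k Ω] [IsScalarTower K k Ω] [DecidableEq Ω] (L : IntermediateField k Ω)
    {R : Pt Ω} (hx : xc R ∈ L) (hy : yc R ∈ L) (c : 𝓞 K) :
    xc (sm Ω c R) ∈ L ∧ yc (sm Ω c R) ∈ L := by
  classical
  have hsc : IsScalarTower K L Ω := sqa_tower L
  let f : L →ₐ[K] Ω := IsScalarTower.toAlgHom K L Ω
  rcases cases_pt R with rfl | ⟨x, y, h, rfl⟩
  · rw [map_zero, xc_zero, yc_zero]
    exact ⟨L.zero_mem, L.zero_mem⟩
  · rw [xc_mk] at hx
    rw [yc_mk] at hy
    have h0 : (⟨y, hy⟩ : L) ^ 2 = (⟨x, hx⟩ : L) ^ 3 + cA L * ⟨x, hx⟩ + cB L := Subtype.ext (by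
      push_cast
      exact h)
    have e : pm f (mkPt (⟨x, hx⟩ : L) ⟨y, hy⟩ h0) = mkPt x y h := by
      obtain ⟨h', e'⟩ := pm_mk f (⟨x, hx⟩ : L) ⟨y, hy⟩ h0
      rw [e', mk_inj]
      exact ⟨rfl, rfl⟩
    rw [← e, ← pm_sm, xc_pm, yc_pm]
    exact ⟨Subtype.property _, Subtype.property _⟩

/-- stability of the generated field under automorphisms over `k0` -/
private theorem sqa_stable {k0 k Ω : Type u} [Field k0] [Algebra K k0] [Field k]
    [Algebra K k] [Algebra k0 k] [IsScalarTower K k0 k] [Normal k0 k] [Field Ω] [Algebra K Ω]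
    [Algebra k Ω] [Algebra k0 Ω] [IsScalarTower K k Ω] [IsScalarTower K k0 Ω]
    [IsScalarTower k0 k Ω] [DecidableEq Ω] (g : Ω →ₐ[K] ℂ) {β : 𝓞 K} (hβ : β ≠ 0)
    {R : Pt Ω} (hR : Ord β R) (σ : Ω ≃ₐ[k0] Ω) {z : Ω}
    (hz : z ∈ IntermediateField.adjoin k {xc R, yc R}) :
    σ z ∈ IntermediateField.adjoin k {xc R, yc R} := by
  have hxm : xc R ∈ IntermediateField.adjoin k {xc R, yc R} :=
    IntermediateField.subset_adjoin _ _ (by simp)
  have hym : yc R ∈ IntermediateField.adjoin k {xc R, yc R} :=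
    IntermediateField.subset_adjoin _ _ (by simp)
  have hσR : sm Ω β (ga σ R) = 0 := ((Ord.ga σ hR) β).2 dvd_rfl
  obtain ⟨c, hc⟩ := ord_cases g hβ hR hσR
  have hm := sqa_mem (IntermediateField.adjoin k {xc R, yc R}) hxm hym c
  rw [← hc, xc_ga, yc_ga] at hm
  induction hz using IntermediateField.adjoin_induction with
  | mem z hz =>
    rcases hz with rfl | hz
    · exact hm.1
    · rw [Set.mem_singleton_iff] at hz
      rw [hz]
      exact hm.2
  | algebraMap x =>
    rw [← AlgEquiv.restrictNormal_commutes]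
    exact IntermediateField.algebraMap_mem _ _
  | add x y hx hy h1 h2 => rw [map_add]; exact add_mem h1 h2
  | inv x hx h1 => rw [map_inv₀]; exact inv_mem h1
  | mul x y hx hy h1 h2 => rw [map_mul]; exact mul_mem h1 h2

/-- the field of the point is generated by its coordinates -/
private theorem sqa_top {k N : Type u} [Field k] [Algebra K k] [Field N]
    [Algebra K N] [Algebra k N] [IsScalarTower K k N] [DecidableEq N] [FiniteDimensional k N]
    [IsGalois k N] {R : Pt N} (hg : ∀ σ : Gal(N/k), ga σ R = R → σ = 1) :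
    IntermediateField.adjoin k {xc R, yc R} = ⊤ := by
  have hxm : xc R ∈ IntermediateField.adjoin k {xc R, yc R} :=
    IntermediateField.subset_adjoin _ _ (by simp)
  have hym : yc R ∈ IntermediateField.adjoin k {xc R, yc R} :=
    IntermediateField.subset_adjoin _ _ (by simp)
  have h1 : (IntermediateField.adjoin k {xc R, yc R}).fixingSubgroup = ⊥ := by
    rw [eq_bot_iff]
    intro σ hσ
    rw [Subgroup.mem_bot]
    refine hg σ ?_
    rw [IntermediateField.mem_fixingSubgroup_iff] at hσ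
    by_cases hR0 : R = 0
    · rw [hR0, map_zero]
    · have hR0' : ga σ R ≠ 0 := by
        intro e
        exact hR0 (pm_inj _ (e.trans (map_zero _).symm))
      refine pt_ext hR0' hR0 ?_ ?_
      · rw [xc_ga]
        exact hσ _ hxm
      · rw [yc_ga]
        exact hσ _ hym
  rw [← IsGalois.fixedField_fixingSubgroup (IntermediateField.adjoin k {xc R, yc R}), h1,
    IntermediateField.fixedField_bot]

section
variable {F F' N' : Type u} [Field F] [NumberField F] [Algebra K F]
  [Field F'] [NumberField F'] [Algebra K F'] [Algebra F F'] [IsScalarTower K F F'] [IsGalois F F']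
  [Field N'] [NumberField N'] [Algebra K N'] [Algebra F' N'] [IsScalarTower K F' N']
  [DecidableEq N'] [IsGalois F' N'] [Algebra F N'] [IsScalarTower F F' N'] [IsScalarTower K F N']
  {ϖ : 𝓞 K} {P' : Pt N'}

theorem sq_galois (hϖ : ϖ ≠ 0) (hF : Full F' ϖ P') : IsGalois F N' := by
  classical
  have hKN : Algebra.IsAlgebraic K N' := by
    have : FiniteDimensional K N' := Module.Finite.of_restrictScalars_finite ℚ K N'
    exact Algebra.IsAlgebraic.of_finite K N'
  have hFN : Algebra.IsAlgebraic F N' := by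
    have : FiniteDimensional F N' := Module.Finite.of_restrictScalars_finite ℚ F N'
    exact Algebra.IsAlgebraic.of_finite F N'
  have hfd : FiniteDimensional F' N' := Module.Finite.of_restrictScalars_finite ℚ F' N'
  have hT1 : IsScalarTower K F' (AlgebraicClosure N') := by
    refine IsScalarTower.of_algebraMap_eq fun x => ?_
    rw [IsScalarTower.algebraMap_apply K N' (AlgebraicClosure N'),
      IsScalarTower.algebraMap_apply F' N' (AlgebraicClosure N'),
      IsScalarTower.algebraMap_apply K F' N']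
  have hT2 : IsScalarTower K F (AlgebraicClosure N') := by
    refine IsScalarTower.of_algebraMap_eq fun x => ?_
    rw [IsScalarTower.algebraMap_apply K N' (AlgebraicClosure N'),
      IsScalarTower.algebraMap_apply F N' (AlgebraicClosure N'),
      IsScalarTower.algebraMap_apply K F N']
  have hT3 : IsScalarTower F F' (AlgebraicClosure N') := by
    refine IsScalarTower.of_algebraMap_eq fun x => ?_
    rw [IsScalarTower.algebraMap_apply F N' (AlgebraicClosure N'),
      IsScalarTower.algebraMap_apply F' N' (AlgebraicClosure N'),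
      IsScalarTower.algebraMap_apply F F' N']
  have hKΩ : Algebra.IsAlgebraic K (AlgebraicClosure N') := Algebra.IsAlgebraic.trans K N' _
  have hFΩ : Algebra.IsAlgebraic F (AlgebraicClosure N') := Algebra.IsAlgebraic.trans F N' _
  have hC : IsAlgClosure F (AlgebraicClosure N') := ⟨inferInstance, hFΩ⟩
  have hN : Normal F (AlgebraicClosure N') := IsAlgClosure.normal F _
  let g : AlgebraicClosure N' →ₐ[K] ℂ := IsAlgClosed.lift
  let f : N' →ₐ[K] AlgebraicClosure N' := IsScalarTower.toAlgHom K N' _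
  let fF' : N' →ₐ[F'] AlgebraicClosure N' := IsScalarTower.toAlgHom F' N' _
  have hR : Ord ϖ (pm f P') := (Ord.map f).2 hF.ord
  have htop := sqa_top hF.gen
  have himg : IntermediateField.adjoin F' {xc (pm f P'), yc (pm f P')} = fF'.fieldRange := by
    rw [AlgHom.fieldRange_eq_map, ← htop, IntermediateField.adjoin_map, Set.image_pair, xc_pm, yc_pm]
    rfl
  have hNL : Normal F ((fF'.fieldRange).restrictScalars F) := by
    rw [IntermediateField.normal_iff_forall_map_le']
    intro σ z hz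
    rw [IntermediateField.mem_map] at hz
    obtain ⟨w, hw, rfl⟩ := hz
    rw [← himg] at hw ⊢
    exact sqa_stable g hϖ hR σ hw
  let fF : N' →ₐ[F] AlgebraicClosure N' := IsScalarTower.toAlgHom F N' _
  have hfr : (fF'.fieldRange).restrictScalars F = fF.fieldRange := by
    ext z
    rfl
  rw [hfr] at hNL
  let e : fF.fieldRange ≃ₐ[F] N' := (AlgEquiv.ofInjectiveField fF).symm
  have hNN : Normal F N' := Normal.of_algEquiv e
  exact ⟨⟩

end

open NumberField IsDedekindDomain WeierstrassCurve Pool.Agent.Lib.MP_1a91b9_nuT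
open Pool.Agent.Lib.MP_1a91b9_nuX.DB

private theorem sqb_tower {k Ω : Type u} [Field k] [Algebra K k] [Field Ω] [Algebra K Ω]
    [Algebra k Ω] [IsScalarTower K k Ω] (L : IntermediateField k Ω) : IsScalarTower K L Ω :=
  IsScalarTower.of_algebraMap_eq fun _ => rfl

/-- the subfield generated by the coordinates of a point -/
private theorem sqb_mem {k Ω : Type u} [Field k] [Algebra K k] [Field Ω] [Algebra K Ω]
    [Algebra k Ω] [IsScalarTower K k Ω] [DecidableEq Ω] (L : IntermediateField k Ω)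
    {R : Pt Ω} (hx : xc R ∈ L) (hy : yc R ∈ L) (c : 𝓞 K) :
    xc (sm Ω c R) ∈ L ∧ yc (sm Ω c R) ∈ L := by
  classical
  have hsc : IsScalarTower K L Ω := sqb_tower L
  let f : L →ₐ[K] Ω := IsScalarTower.toAlgHom K L Ω
  rcases cases_pt R with rfl | ⟨x, y, h, rfl⟩
  · rw [map_zero, xc_zero, yc_zero]
    exact ⟨L.zero_mem, L.zero_mem⟩
  · rw [xc_mk] at hx
    rw [yc_mk] at hy
    have h0 : (⟨y, hy⟩ : L) ^ 2 = (⟨x, hx⟩ : L) ^ 3 + cA L * ⟨x, hx⟩ + cB L := Subtype.ext (by
      push_cast
      exact h)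
    have e : pm f (mkPt (⟨x, hx⟩ : L) ⟨y, hy⟩ h0) = mkPt x y h := by
      obtain ⟨h', e'⟩ := pm_mk f (⟨x, hx⟩ : L) ⟨y, hy⟩ h0
      rw [e', mk_inj]
      exact ⟨rfl, rfl⟩
    rw [← e, ← pm_sm, xc_pm, yc_pm]
    exact ⟨Subtype.property _, Subtype.property _⟩

/-- stability of the generated field under automorphisms -/
private theorem sqb_stable {k Ω : Type u} [Field k]
    [Algebra K k] [Field Ω] [Algebra K Ω]
    [Algebra k Ω] [IsScalarTower K k Ω] [DecidableEq Ω] (g : Ω →ₐ[K] ℂ) {β : 𝓞 K} (hβ : β ≠ 0)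
    {R : Pt Ω} (hR : Ord β R) (σ : Ω ≃ₐ[k] Ω) {z : Ω}
    (hz : z ∈ IntermediateField.adjoin k {xc R, yc R}) :
    σ z ∈ IntermediateField.adjoin k {xc R, yc R} := by
  have hxm : xc R ∈ IntermediateField.adjoin k {xc R, yc R} :=
    IntermediateField.subset_adjoin _ _ (by simp)
  have hym : yc R ∈ IntermediateField.adjoin k {xc R, yc R} :=
    IntermediateField.subset_adjoin _ _ (by simp)
  have hσR : sm Ω β (ga σ R) = 0 := ((Ord.ga σ hR) β).2 dvd_rfl
  obtain ⟨c, hc⟩ := ord_cases g hβ hR hσR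
  have hm := sqb_mem (IntermediateField.adjoin k {xc R, yc R}) hxm hym c
  rw [← hc, xc_ga, yc_ga] at hm
  induction hz using IntermediateField.adjoin_induction with
  | mem z hz =>
    rcases hz with rfl | hz
    · exact hm.1
    · rw [Set.mem_singleton_iff] at hz
      rw [hz]
      exact hm.2
  | algebraMap x =>
    rw [AlgEquiv.commutes]
    exact IntermediateField.algebraMap_mem _ _
  | add x y hx hy h1 h2 => rw [map_add]; exact add_mem h1 h2
  | inv x hx h1 => rw [map_inv₀]; exact inv_mem h1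
  | mul x y hx hy h1 h2 => rw [map_mul]; exact mul_mem h1 h2

section
variable {F F' N' : Type u} [Field F] [NumberField F] [Algebra K F]
  [Field F'] [NumberField F'] [Algebra K F'] [Algebra F F'] [IsScalarTower K F F'] [IsGalois F F']
  [Field N'] [NumberField N'] [Algebra K N'] [Algebra F' N'] [IsScalarTower K F' N']
  [DecidableEq N'] [IsGalois F' N'] [Algebra F N'] [IsScalarTower F F' N'] [IsScalarTower K F N']
  {ϖ : 𝓞 K} {P' : Pt N'}

/-- the subfield generated by the point -/
theorem exists_sub [IsGalois F N'] (hϖ : ϖ ≠ 0) (hϖ1 : ¬ IsUnit ϖ) (hP : Ord ϖ P') :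
    ∃ (N : Type u) (_ : Field N) (_ : NumberField N) (_ : Algebra K N) (_ : Algebra F N)
      (_ : Algebra N N') (_ : IsScalarTower K F N) (_ : IsScalarTower K N N')
      (_ : IsScalarTower F N N') (_ : DecidableEq N), IsGalois F N ∧ IsGalois N N' ∧
      ∃ P : Pt N, pm (IsScalarTower.toAlgHom K N N') P = P' ∧ Ord ϖ P ∧
        ∀ σ : Gal(N/F), ga σ P = P → σ = 1 := by
  have hfd : FiniteDimensional F N' := Module.Finite.of_restrictScalars_finite ℚ F N'
  obtain ⟨g⟩ := exists_emb N'
  have hR0 : P' ≠ 0 := by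
    rintro rfl
    have h1 : ϖ ∣ 1 := (hP 1).1 (map_zero _)
    exact hϖ1 (isUnit_of_dvd_one h1)
  obtain ⟨hE, hRe⟩ := exists_mk hR0
  set L0 : IntermediateField F N' := IntermediateField.adjoin F {xc P', yc P'} with hL0
  have hxm : xc P' ∈ L0 := IntermediateField.subset_adjoin _ _ (by simp)
  have hym : yc P' ∈ L0 := IntermediateField.subset_adjoin _ _ (by simp)
  have hfin : FiniteDimensional F L0 := inferInstance
  have hNF : NumberField L0 := NumberField.of_module_finite F L0
  have t1 : IsScalarTower K F L0 := by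
    refine IsScalarTower.of_algebraMap_eq fun x => Subtype.ext ?_
    exact IsScalarTower.algebraMap_apply K F N' x
  have t4 : IsScalarTower K L0 N' := sqb_tower L0
  have t5 : IsScalarTower F L0 N' := inferInstance
  have hNL : Normal F L0 := by
    rw [IntermediateField.normal_iff_forall_map_le']
    intro σ z hz
    rw [IntermediateField.mem_map] at hz
    obtain ⟨w, hw, rfl⟩ := hz
    exact sqb_stable g hϖ hP σ hw
  have hG0 : IsGalois F L0 := ⟨⟩
  have hG : IsGalois L0 N' := IsGalois.tower_top_of_isGalois F L0 N'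
  let dL : DecidableEq L0 := fun a b => Classical.propDecidable (a = b)
  refine ⟨L0, L0.toField, hNF, L0.algebra', L0.algebra', L0.toAlgebra, t1, t4, t5, dL, hG0, hG,
    ?_⟩
  have h0 : (⟨yc P', hym⟩ : L0) ^ 2 = (⟨xc P', hxm⟩ : L0) ^ 3 +
      cA L0 * ⟨xc P', hxm⟩ + cB L0 := Subtype.ext (by
    push_cast
    exact hE)
  have hmap : pm (IsScalarTower.toAlgHom K L0 N')
      (mkPt (⟨xc P', hxm⟩ : L0) ⟨yc P', hym⟩ h0) = P' := by
    obtain ⟨h', e'⟩ := pm_mk (IsScalarTower.toAlgHom K L0 N')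
      (⟨xc P', hxm⟩ : L0) ⟨yc P', hym⟩ h0
    rw [e']
    exact (mk_inj.2 ⟨rfl, rfl⟩ : _ = mkPt (xc P') (yc P') hE).trans hRe.symm
  refine ⟨mkPt (⟨xc P', hxm⟩ : L0) ⟨yc P', hym⟩ h0, hmap, ?_, ?_⟩
  · rw [← Ord.map (IsScalarTower.toAlgHom K L0 N'), hmap]
    exact hP
  · intro σ hσ
    have hx := congrArg xc hσ
    have hy := congrArg yc hσ
    rw [xc_ga, xc_mk] at hx
    rw [yc_ga, yc_mk] at hy
    have key : (σ : L0 →ₐ[F] L0) = AlgHom.id F L0 := by
      refine IntermediateField.algHom_ext_of_eq_adjoin F hL0 ?_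
      intro z hz
      rcases hz with rfl | hz
      · exact hx
      · rw [Set.mem_singleton_iff] at hz
        subst hz
        exact hy
    ext z
    exact congrArg Subtype.val (DFunLike.congr_fun key z)

end

open NumberField IsDedekindDomain WeierstrassCurve Pool.Agent.Lib.MP_1a91b9_nuT
open Pool.Agent.Lib.MP_1a91b9_nuX.DB

section
variable {F F' N' : Type u} [Field F] [NumberField F] [Algebra K F]
  [Field F'] [NumberField F'] [Algebra K F'] [Algebra F F'] [IsScalarTower K F F'] [IsGalois F F']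
  [Field N'] [NumberField N'] [Algebra K N'] [Algebra F' N'] [IsScalarTower K F' N']
  [DecidableEq N'] [IsGalois F' N'] [Algebra F N'] [IsScalarTower F F' N'] [IsScalarTower K F N']
  {ϖ : 𝓞 K} {P' : Pt N'}

private theorem sqc_comm {F₁ F₂ : Type*} [Field F₁] [Algebra K F₁] [Field F₂] [Algebra K F₂]
    [DecidableEq F₁] [DecidableEq F₂] (f : F₁ →ₐ[K] F₂) (g : F₁ →ₐ[K] F₁) (g' : F₂ →ₐ[K] F₂)
    (h : ∀ x, f (g x) = g' (f x)) (P : Pt F₁) : pm f (pm g P) = pm g' (pm f P) := by
  rcases cases_pt P with rfl | ⟨x, y, hxy, rfl⟩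
  · rw [map_zero, map_zero, map_zero]
  · obtain ⟨h1, e1⟩ := pm_mk g x y hxy
    obtain ⟨h2, e2⟩ := pm_mk f _ _ h1
    obtain ⟨h3, e3⟩ := pm_mk f x y hxy
    obtain ⟨h4, e4⟩ := pm_mk g' _ _ h3
    rw [e1, e2, e3, e4, mk_inj]
    exact ⟨h x, h y⟩

theorem exists_sq {ℓ q : ℕ} (h : PD ϖ ℓ q) (hF : Full F' ϖ P') (hd : Module.finrank F F' = ℓ) :
    IsGalois F N' ∧
    ∃ (N : Type u) (_ : Field N) (_ : NumberField N) (_ : Algebra K N) (_ : Algebra F N)
      (_ : Algebra N N') (_ : IsScalarTower K F N) (_ : IsScalarTower K N N')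
      (_ : IsScalarTower F N N') (_ : DecidableEq N), IsGalois F N ∧ IsGalois N N' ∧
      ∃ P : Pt N, Sq F F' ϖ ℓ P P' := by
  have hϖ : ϖ ≠ 0 := h.prime.ne_zero
  have hϖ1 : ¬ IsUnit ϖ := h.prime.not_isUnit
  have hG : IsGalois F N' := sq_galois hϖ hF
  refine ⟨hG, ?_⟩
  obtain ⟨N, i1, i2, i3, i4, i5, i6, i7, i8, i9, hGN, hGN', P, hPP, hPo, hPg⟩ :=
    exists_sub (F := F) hϖ hϖ1 hF.ord
  have hfull : Full F ϖ P := by
    refine ⟨hPo, hPg, fun c hc => ?_⟩
    obtain ⟨σ', hσ'⟩ := hF.all c hc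
    refine ⟨(AlgEquiv.restrictScalars F σ').restrictNormal N, ?_⟩
    apply pm_inj (IsScalarTower.toAlgHom K N N')
    rw [pm_sm, hPP, ← hσ']
    refine (sqc_comm (IsScalarTower.toAlgHom K N N') _ ((σ' : N' →ₐ[F'] N').restrictScalars K)
      ?_ P).trans ?_
    · intro x
      exact AlgEquiv.restrictNormal_commutes (AlgEquiv.restrictScalars F σ') N x
    · rw [hPP]
  refine ⟨N, i1, i2, i3, i4, i5, i6, i7, i8, i9, hGN, hGN', P, hfull, hF, hPP, hd, ?_⟩
  have h1 := hfull.card h
  have h2 := hF.card h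
  have h3 : Module.finrank F N * Module.finrank N N' = Module.finrank F N' :=
    Module.finrank_mul_finrank F N N'
  have h4 : Module.finrank F F' * Module.finrank F' N' = Module.finrank F N' :=
    Module.finrank_mul_finrank F F' N'
  have h5 := h.q_five
  have h6 : Module.finrank F N = Module.finrank F' N' := by omega
  have h7 : 0 < Module.finrank F' N' := by omega
  rw [h6, ← h4, hd, mul_comm ℓ] at h3
  exact Nat.eq_of_mul_eq_mul_left h7 h3

end

end Pool.Agent.Lib.MP_1a91b9_nuX.DS
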