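import Pool.Agent.Lib.MP_1a91b9_nuX.DS.Loc
import Pool.Agent.Lib.MP_1a91b9_nuX.DS.Sel
import Pool.Agent.Lib.MP_1a91b9_nuX.DS.Nrm
import Pool.Agent.Lib.MP_1a91b9_nuX.DS.Sq
import Pool.Agent.Lib.MP_1a91b9_nuX.DS.Proj
import Pool.Agent.Lib.MP_1a91b9_nuT.DS.Tower

/-!
# The curves `y² = x³ + D`: the induction step of the tower (port of MP_1a91b9_nuT/DS/Tower.lean and
MP_1a91b9_nuT/TG/Tower.lean)
-/

set_option autoImplicit false

namespace Pool.Agent.Lib.MP_1a91b9_nuX.DS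

variable [Pool.Agent.Lib.MP_1a91b9_nuT.CD]

open NumberField IsDedekindDomain WeierstrassCurve Pool.Agent.Lib.MP_1a91b9_nuT
open Pool.Agent.Lib.MP_1a91b9_nuX.DB

export Pool.Agent.Lib.MP_1a91b9_nuT.DS (unr_base unr_step)

universe u

variable [HC]

section
variable {F F' : Type u} [Field F] [NumberField F] [Algebra K F]
  [Field F'] [NumberField F'] [Algebra K F'] [Algebra F F'] [IsScalarTower K F F'] [IsGalois F F']
  {ϖ : 𝓞 K} {ℓ q : ℕ} (h : PD ϖ ℓ q) (hd : Module.finrank F F' = ℓ)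
  (hu : ∀ v : HeightOneSpectrum (𝓞 F'), v.valuation F' (ℓ : F') < 1 →
    v.asIdeal.ramificationIdx (𝓞 F) = 1)
  (ha : ∀ v : HeightOneSpectrum (𝓞 F'), v.asIdeal.ramificationIdx (𝓞 F) ≠ 1 →
    IsCoprime (psi F (v.under (𝓞 F)).asIdeal - 1) (ℓ : 𝓞 K))
include h hd

theorem step_DTb (b : 𝓞 K) (hDT : DTb b ϖ F) : DTb b ϖ F' := by
  intro N' _ _ _ _ _ _ _ P' hP' v hv
  letI : Algebra F N' := ((algebraMap F' N').comp (algebraMap F F')).toAlgebra
  haveI : IsScalarTower F F' N' := IsScalarTower.of_algebraMap_eq fun x => rfl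
  haveI : IsScalarTower K F N' := IsScalarTower.of_algebraMap_eq fun x => by
    rw [IsScalarTower.algebraMap_apply K F' N', IsScalarTower.algebraMap_apply K F F',
      IsScalarTower.algebraMap_apply F F' N']
  obtain ⟨hG, N, _, _, _, _, _, _, _, _, _, hG1, hG2, P, hS⟩ := exists_sq h hP' hd
  have h3 : (v.under (𝓞 N)).valuation N (algebraMap K N (b : K)) < 1 := by
    rw [← val_map_lt, ← IsScalarTower.algebraMap_apply K N N']
    exact hv
  obtain ⟨σ, hσ, hσ2⟩ := hDT N P hS.full (v.under (𝓞 N)) h3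
  obtain ⟨σ', h1, h2⟩ := lift h hS σ
  refine ⟨σ', ?_, fix_up h hS v hσ2 h1⟩
  rintro rfl
  apply hσ
  ext y
  have h4 := h1 y
  rw [AlgEquiv.one_apply] at h4
  rw [AlgEquiv.one_apply]
  exact ((algebraMap N N').injective h4).symm

theorem step_DT (hDT : DT ϖ F) : DT ϖ F' :=
  (dt_three ϖ F').1 (step_DTb h hd bO ((dt_three ϖ F).2 hDT))

include hu ha

theorem step_VT (hU : UnrL ℓ F') (hDT : DT ϖ F) (hVT : VT ϖ ℓ F) : VT ϖ ℓ F' := by
  intro N' _ _ _ _ _ _ _ P' hP' y hy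
  letI : Algebra F N' := ((algebraMap F' N').comp (algebraMap F F')).toAlgebra
  haveI : IsScalarTower F F' N' := IsScalarTower.of_algebraMap_eq fun x => rfl
  haveI : IsScalarTower K F N' := IsScalarTower.of_algebraMap_eq fun x => by
    rw [IsScalarTower.algebraMap_apply K F' N', IsScalarTower.algebraMap_apply K F F',
      IsScalarTower.algebraMap_apply F F' N']
  obtain ⟨hG, N, _, _, _, _, _, _, _, _, _, hG1, hG2, P, hS⟩ := exists_sq h hP' hd
  by_contra hn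
  obtain ⟨γ, hγ1, hγ2, -⟩ := exists_gamma h hS
  obtain ⟨a, b, haV, han, hab⟩ := exists_fixed h hS hγ2 hy hn
  have hb := nm_one h hS hU hγ2 haV.iso hab
  haveI : FiniteDimensional N N' := Module.Finite.of_restrictScalars_finite ℚ N N'
  obtain ⟨a0, d, h0⟩ := exists_a0 hS.deg' hγ1 hγ2 hab hb
  obtain ⟨a1, z, hi, h1⟩ := exists_a1 h hS haV.iso h0
  have hod := od_step h hS hu ha hDT haV.od hi h1
  have hloc := loc_step h hS hu haV.loc hod h1
  obtain ⟨x, hx⟩ := hVT N P hS.full a1 ⟨hod, hi, hloc⟩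
  apply han
  refine ⟨inU N N' x * z⁻¹, ?_⟩
  rw [hx, map_pow] at h1
  rw [mul_pow, inv_pow, h1, mul_assoc, mul_inv_cancel, mul_one]

end

section
variable {P : ∀ (F : Type u) [Field F] [NumberField F] [Algebra K F], Prop}
  {ϖ : 𝓞 K} {ℓ q : ℕ}

/-- the Selmer group in Kummer form is trivial over the fields of the tower -/
theorem tower_alg (h : PD ϖ ℓ q)
    (hVT : ∀ (F : Type u) [Field F] [NumberField F] [Algebra K F], P F → VT ϖ ℓ F)
    (hDT : ∀ (F : Type u) [Field F] [NumberField F] [Algebra K F], P F → DT ϖ F)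
    (hUr : ∀ (F : Type u) [Field F] [NumberField F] [Algebra K F], P F → UnrL ℓ F)
    (F : Type u) [Field F] [NumberField F] [Algebra K F] (hF : TowerG P ℓ F) :
    VT ϖ ℓ F ∧ DT ϖ F ∧ UnrL ℓ F := by
  induction hF with
  | base F hb => exact ⟨hVT F hb, hDT F hb, hUr F hb⟩
  | step F F' hG hr hu ha hF ih =>
    obtain ⟨i1, i2, i3⟩ := ih
    have hu' : ∀ v : HeightOneSpectrum (𝓞 F'), v.valuation F' (ℓ : F') < 1 →
        v.asIdeal.ramificationIdx (𝓞 F) = 1 := by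
      intro v hv
      by_contra hne
      refine hu (v.under (𝓞 F)) ?_ ⟨v, (MP_1a91b9_nuG.le_sq_iff rfl).mpr hne⟩
      have h1 : (v.under (𝓞 F)).valuation F (ℓ : F) < 1 := by
        rw [← val_map_lt, map_natCast]
        exact hv
      have e : algebraMap (𝓞 F) F (ℓ : 𝓞 F) = (ℓ : F) := map_natCast (algebraMap (𝓞 F) F) ℓ
      exact ((v.under (𝓞 F)).valuation_lt_one_iff_mem (K := F) (ℓ : 𝓞 F)).1 (by
        change (v.under (𝓞 F)).valuation F (algebraMap (𝓞 F) F (ℓ : 𝓞 F)) < 1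
        rw [e]
        exact h1)
    have ha' : ∀ v : HeightOneSpectrum (𝓞 F'), v.asIdeal.ramificationIdx (𝓞 F) ≠ 1 →
        IsCoprime (psi F (v.under (𝓞 F)).asIdeal - 1) (ℓ : 𝓞 K) := by
      intro v hv
      exact ha (v.under (𝓞 F)) ⟨v, (MP_1a91b9_nuG.le_sq_iff rfl).mpr hv⟩
    have hU' := unr_step hu' i3
    exact ⟨step_VT h hr hu' ha' hU' i2 i1, step_DT h hr i2, hU'⟩


end

end Pool.Agent.Lib.MP_1a91b9_nuX.DS
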